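import Mathlib
import Pool.Agent.Q212.TailRatio2

/-!
# Tail ratio for i.i.d. sums: the mean version fails, but holds up to a constant
-/

namespace Pool.Agent.Results.MP_966169_pr.MeanVersion

open MeasureTheory Set
open Pool.Agent.Q212.TailRatio

/-- There is an absolutely continuous, not compactly supported law `μ` on `[0,∞)` with finite mean
and `R(z) < 2 z / mean` for all `z > 0`; but every such law with finite mean has some `z > 0` with
`R(z) ≥ (1/12) z / mean`. -/
theorem result :
    (∃ μ : Measure ℝ, IsLaw μ ∧ Integrable (fun x => x) μ ∧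
      ∀ z > 0, ratio μ z < 2 * z / ∫ x, x ∂μ) ∧
    (∀ μ : Measure ℝ, IsLaw μ → Integrable (fun x => x) μ →
      ∃ z > 0, 1 / 12 * z / (∫ x, x ∂μ) ≤ ratio μ z) :=
  ⟨⟨mu0, mu0_law, mu0_mean.1, mean_example⟩, fun _ h hi => mean_lower h hi⟩

end Pool.Agent.Results.MP_966169_pr.MeanVersion
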