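import Mathlib
import Pool.Agent.Q212.TailRatio2

/-!
# Tail ratio for i.i.d. sums: the median version fails, but holds up to a constant
-/

namespace Pool.Agent.Results.MP_966169_pr.MedianVersion

open MeasureTheory Set
open Pool.Agent.Q212.TailRatio

/-- There is an absolutely continuous, not compactly supported law `μ` on `[0,∞)` with
`R(z) < (2 log 2) z / med` for all `z > 0`; but every such law has some `z > 0` with
`R(z) ≥ (1/6) z / med`. -/
theorem result :
    (∃ μ : Measure ℝ, IsLaw μ ∧ ∀ z > 0, ratio μ z < 2 * Real.log 2 * z / med μ) ∧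
    (∀ μ : Measure ℝ, IsLaw μ → ∃ z > 0, 1 / 6 * z / med μ ≤ ratio μ z) :=
  ⟨⟨mu0, mu0_law, median_example⟩, fun _ h => median_lower h⟩

end Pool.Agent.Results.MP_966169_pr.MedianVersion
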